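import Mathlib
import Pool.Agent.H.MP_697e97_al.A

set_option autoImplicit false

namespace Pool.Agent.Results.MP_697e97_al.EndR

open Pool.Agent.H.MP_697e97_al

/-- M is a product C_1 ... C_n of n commutative submonoids -/
def WidthLE (M : Type*) [Monoid M] (n : ℕ) : Prop :=
  ∃ C : Fin n → Submonoid M, (∀ i, ∀ a ∈ C i, ∀ b ∈ C i, a * b = b * a) ∧
    ∀ x : M, ∃ c : Fin n → M, (∀ i, c i ∈ C i) ∧ x = (List.ofFn c).prod

lemma comm_closure {M : Type*} [Monoid M] (s : Set M) (h : ∀ a ∈ s, ∀ b ∈ s, a * b = b * a) :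
    ∀ a ∈ Submonoid.closure s, ∀ b ∈ Submonoid.closure s, a * b = b * a := by
  intro a ha b hb
  have h1 : Submonoid.closure s ≤ Submonoid.centralizer s :=
    Submonoid.closure_le.2 fun x hx y hy => h y hy x hx
  have h2 : Submonoid.closure s ≤ Submonoid.centralizer {a} :=
    Submonoid.closure_le.2 fun x hx y hy => by
      rw [Set.mem_singleton_iff.1 hy]; exact (h1 ha x hx).symm
  exact h2 hb a rfl

def toHom : (ℚ ≃o ℚ) →* (ℚ →o ℚ) where
  toFun f := ⟨f, f.monotone⟩
  map_one' := rfl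
  map_mul' _ _ := rfl

theorem result (V : Type) [Countable V] (G : SimpleGraph V)
    (hG : ∀ U W : Finset V, Disjoint U W →
      ∃ z, z ∉ U ∧ z ∉ W ∧ (∀ u ∈ U, G.Adj z u) ∧ ∀ w ∈ W, ¬ G.Adj z w) :
    WidthLE (G →g G) 3 := by
  obtain ⟨α, β, g, h1, h2⟩ := three (G := G) hG
  refine ⟨![Submonoid.closure {β}, Submonoid.closure (Set.range g), Submonoid.closure {α}],
    fun i => ?_, fun f => ⟨![β, g f, α], fun i => ?_, ?_⟩⟩
  · fin_cases i
    · exact comm_closure _ (by simp)
    · exact comm_closure _ (by rintro _ ⟨a, rfl⟩ _ ⟨b, rfl⟩; exact h1 a b)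
    · exact comm_closure _ (by simp)
  · fin_cases i
    · exact Submonoid.subset_closure rfl
    · exact Submonoid.subset_closure ⟨f, rfl⟩
    · exact Submonoid.subset_closure rfl
  · simpa [List.ofFn_succ, mul_assoc] using h2 f

end Pool.Agent.Results.MP_697e97_al.EndR
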