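import Mathlib
import Pool.Agent.H.MP_697e97_al.A

set_option autoImplicit false

namespace Pool.Agent.Results.MP_697e97_al.QEnd

open Pool.Agent.H.MP_697e97_al

/-- M is a product C_1 ... C_n of n commutative submonoids -/
def WidthLE (M : Type*) [Monoid M] (n : ℕ) : Prop :=
  ∃ C : Fin n → Submonoid M, (∀ i, ∀ a ∈ C i, ∀ b ∈ C i, a * b = b * a) ∧
    ∀ x : M, ∃ c : Fin n → M, (∀ i, c i ∈ C i) ∧ x = (List.ofFn c).prod

lemma comm_closure {M : Type*} [Monoid M] (s : Set M) (h : ∀ a ∈ s, ∀ b ∈ s, a * b = b * a) :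
    ∀ a ∈ Submonoid.closure s, ∀ b ∈ Submonoid.closure s, a * b = b * a := by
  intro a ha b hb
  have h1 : Submonoid.closure s ≤ Submonoid.centralizer s :=
    Submonoid.closure_le.2 fun x hx y hy => h y hy x hx
  have h2 : Submonoid.closure s ≤ Submonoid.centralizer {a} :=
    Submonoid.closure_le.2 fun x hx y hy => by
      rw [Set.mem_singleton_iff.1 hy]; exact (h1 ha x hx).symm
  exact h2 hb a rfl

def toHom : (ℚ ≃o ℚ) →* (ℚ →o ℚ) where
  toFun f := ⟨f, f.monotone⟩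
  map_one' := rfl
  map_mul' _ _ := rfl

theorem result (n : ℕ) : ¬ WidthLE (ℚ →o ℚ) n := by
  rintro ⟨C, hC, h⟩
  obtain ⟨f, hf⟩ := noQ n (fun i => C i) hC
  obtain ⟨c, hc, e⟩ := h (toHom f)
  obtain ⟨x, hx⟩ := hf c hc
  exact hx (DFunLike.congr_fun e x).symm

end Pool.Agent.Results.MP_697e97_al.QEnd
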